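import Mathlib

set_option autoImplicit false

/-! Free completion of a finite graph of girth at least five to a countable graph of infinite
degree, diameter two and girth five. -/

namespace Pool.Agent.H104Z.Tied

/-- first vertex of the task at time `n` -/
def ta (n : ℕ) : ℕ := (Nat.unpair (Nat.unpair n).1).1

/-- second vertex of the task at time `n` -/
def tb (n : ℕ) : ℕ := (Nat.unpair (Nat.unpair n).1).2

/-- neighbours of the new vertex `v` -/
def par (R : ℕ → ℕ → Prop) (v a b y : ℕ) : Prop :=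
  y < v ∧ (y = a ∨ (y = b ∧ a < v ∧ ¬ R a b ∧ ¬ ∃ c, R a c ∧ R c b))

/-- the stages of the construction -/
def st (B : ℕ → ℕ → Prop) (m : ℕ) : ℕ → ℕ → ℕ → Prop
  | 0 => B
  | n + 1 => fun x y => st B m n x y ∨ (x = m + n ∧ par (st B m n) (m + n) (ta n) (tb n) y) ∨
      (y = m + n ∧ par (st B m n) (m + n) (ta n) (tb n) x)

/-- symmetric, loopless, supported below `N`, no triangle and no quadrilateral -/
structure Good (R : ℕ → ℕ → Prop) (N : ℕ) : Prop where
  symm : ∀ x y, R x y → R y x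
  irrefl : ∀ x, ¬ R x x
  lt : ∀ x y, R x y → x < N
  tri : ∀ x y z, R x y → R y z → R z x → False
  quad : ∀ x y c c', x ≠ y → R x c → R c y → R x c' → R c' y → c = c'

theorem good_step {R : ℕ → ℕ → Prop} {v : ℕ} (h : Good R v) (a b : ℕ) :
    Good (fun x y => R x y ∨ (x = v ∧ par R v a b y) ∨ (y = v ∧ par R v a b x)) (v + 1) := by
  have hlt := h.lt
  have hlt' : ∀ x y, R x y → y < v := fun x y hxy => h.lt y x (h.symm x y hxy)
  have hp : ∀ y, par R v a b y → y < v := fun y hy => hy.1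
  have hp2 : ∀ x y, par R v a b x → par R v a b y → x ≠ y → ¬ R x y ∧ ¬ ∃ c, R x c ∧ R c y := by
    rintro x y ⟨-, hx⟩ ⟨-, hy⟩ hxy
    rcases hx with rfl | ⟨rfl, -, h1, h2⟩
    · rcases hy with rfl | ⟨rfl, -, h1, h2⟩
      · exact absurd rfl hxy
      · exact ⟨h1, h2⟩
    · rcases hy with rfl | ⟨rfl, -, -, -⟩
      · exact ⟨fun h3 => h1 (h.symm _ _ h3),
          fun ⟨c, h3, h4⟩ => h2 ⟨c, h.symm _ _ h4, h.symm _ _ h3⟩⟩
      · exact absurd rfl hxy
  -- normal form of the new relation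
  have hold : ∀ x y, x ≠ v → y ≠ v →
      (R x y ∨ (x = v ∧ par R v a b y) ∨ (y = v ∧ par R v a b x)) → R x y := by
    intro x y hx hy hxy
    rcases hxy with h1 | h1 | h1
    · exact h1
    · exact absurd h1.1 hx
    · exact absurd h1.1 hy
  have hl : ∀ y, (R v y ∨ (v = v ∧ par R v a b y) ∨ (y = v ∧ par R v a b v)) → par R v a b y := by
    intro y hy
    rcases hy with h1 | h1 | h1
    · exact absurd (hlt _ _ h1) (lt_irrefl _)
    · exact h1.2
    · exact absurd (hp _ h1.2) (lt_irrefl _)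
  have hr : ∀ x, (R x v ∨ (x = v ∧ par R v a b v) ∨ (v = v ∧ par R v a b x)) → par R v a b x := by
    intro x hx
    rcases hx with h1 | h1 | h1
    · exact absurd (hlt' _ _ h1) (lt_irrefl _)
    · exact absurd (hp _ h1.2) (lt_irrefl _)
    · exact h1.2
  have htri : ∀ y z, par R v a b y → par R v a b z →
      (R y z ∨ (y = v ∧ par R v a b z) ∨ (z = v ∧ par R v a b y)) → False := by
    intro y z hy hz hyz
    have h1 := hold y z (hp y hy).ne (hp z hz).ne hyz
    exact (hp2 y z hy hz (fun h2 => h.irrefl y (h2 ▸ h1))).1 h1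
  refine ⟨?_, ?_, ?_, ?_, ?_⟩
  · rintro x y (h1 | h1 | h1)
    · exact Or.inl (h.symm _ _ h1)
    · exact Or.inr (Or.inr h1)
    · exact Or.inr (Or.inl h1)
  · rintro x (h1 | ⟨rfl, h1⟩ | ⟨rfl, h1⟩)
    · exact h.irrefl x h1
    · exact absurd (hp _ h1) (lt_irrefl _)
    · exact absurd (hp _ h1) (lt_irrefl _)
  · rintro x y (h1 | ⟨rfl, h1⟩ | ⟨rfl, h1⟩)
    · exact Nat.lt_succ_of_lt (hlt _ _ h1)
    · exact Nat.lt_succ_self _
    · exact Nat.lt_succ_of_lt (hp _ h1)
  · intro x y z h1 h2 h3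
    by_cases hx : x = v
    · subst hx
      exact htri y z (hl y h1) (hr z h3) h2
    by_cases hy : y = v
    · subst hy
      exact htri z x (hl z h2) (hr x h1) h3
    by_cases hz : z = v
    · subst hz
      exact htri x y (hl x h3) (hr y h2) h1
    exact h.tri x y z (hold _ _ hx hy h1) (hold _ _ hy hz h2) (hold _ _ hz hx h3)
  · intro x y c c' hxy h1 h2 h3 h4
    by_contra hcc
    by_cases hx : x = v
    · subst hx
      have h5 := hl c h1
      have h6 := hl c' h3
      exact (hp2 c c' h5 h6 hcc).2 ⟨y, hold _ _ (hp _ h5).ne (Ne.symm hxy) h2,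
        h.symm _ _ (hold _ _ (hp _ h6).ne (Ne.symm hxy) h4)⟩
    by_cases hy : y = v
    · subst hy
      have h5 := hr c h2
      have h6 := hr c' h4
      exact (hp2 c c' h5 h6 hcc).2 ⟨x, h.symm _ _ (hold _ _ hx (hp _ h5).ne h1),
        hold _ _ hx (hp _ h6).ne h3⟩
    by_cases hc : c = v
    · subst hc
      exact (hp2 x y (hr x h1) (hl y h2) hxy).2 ⟨c', hold _ _ hx (Ne.symm hcc) h3,
        hold _ _ (Ne.symm hcc) hy h4⟩
    by_cases hc' : c' = v
    · subst hc'
      exact (hp2 x y (hr x h3) (hl y h4) hxy).2 ⟨c, hold _ _ hx hc h1, hold _ _ hc hy h2⟩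
    exact hcc (h.quad x y c c' hxy (hold _ _ hx hc h1) (hold _ _ hc hy h2) (hold _ _ hx hc' h3)
      (hold _ _ hc' hy h4))

variable {B : ℕ → ℕ → Prop} {m : ℕ}

theorem good_st (hB : Good B m) (n : ℕ) : Good (st B m n) (m + n) := by
  induction n with
  | zero => exact hB
  | succ n ih => exact good_step ih (ta n) (tb n)

theorem st_mono {n n' : ℕ} (h : n ≤ n') {x y : ℕ} (hxy : st B m n x y) : st B m n' x y := by
  induction h with
  | refl => exact hxy
  | step _ ih => exact Or.inl ih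

theorem st_low (hB : Good B m) (n : ℕ) {x y : ℕ} (hxy : st B m n x y) (h1 : y < x) (h2 : m ≤ x) :
    y = ta (x - m) ∨ y = tb (x - m) := by
  induction n with
  | zero => exact absurd (hB.lt x y hxy) (by omega)
  | succ n ih =>
    rcases hxy with h | ⟨rfl, h⟩ | ⟨rfl, h⟩
    · exact ih h
    · rw [Nat.add_sub_cancel_left]
      exact h.2.imp id (fun h3 => h3.1)
    · exact absurd h.1 (by omega)

/-- the limit graph -/
def lim (hB : Good B m) : SimpleGraph ℕ where
  Adj x y := ∃ n, st B m n x y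
  symm := ⟨fun x y ⟨n, h⟩ => ⟨n, (good_st hB n).symm x y h⟩⟩
  loopless := ⟨fun x ⟨n, h⟩ => (good_st hB n).irrefl x h⟩

theorem lim_tri (hB : Good B m) (x y z : ℕ) (h1 : (lim hB).Adj x y) (h2 : (lim hB).Adj y z)
    (h3 : (lim hB).Adj z x) : False := by
  obtain ⟨n1, h1⟩ := h1
  obtain ⟨n2, h2⟩ := h2
  obtain ⟨n3, h3⟩ := h3
  exact (good_st hB (n1 + n2 + n3)).tri x y z (st_mono (by omega) h1) (st_mono (by omega) h2)
    (st_mono (by omega) h3)

theorem lim_quad (hB : Good B m) (x y c c' : ℕ) (hxy : x ≠ y) (h1 : (lim hB).Adj x c)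
    (h2 : (lim hB).Adj c y) (h3 : (lim hB).Adj x c') (h4 : (lim hB).Adj c' y) : c = c' := by
  obtain ⟨n1, h1⟩ := h1
  obtain ⟨n2, h2⟩ := h2
  obtain ⟨n3, h3⟩ := h3
  obtain ⟨n4, h4⟩ := h4
  exact (good_st hB (n1 + n2 + n3 + n4)).quad x y c c' hxy (st_mono (by omega) h1)
    (st_mono (by omega) h2) (st_mono (by omega) h3) (st_mono (by omega) h4)

theorem lim_new (hB : Good B m) (a b t : ℕ) (ht : a < t) :
    (lim hB).Adj (m + Nat.pair (Nat.pair a b) t) a := by
  refine ⟨Nat.pair (Nat.pair a b) t + 1, Or.inr (Or.inl ⟨rfl, ?_, Or.inl ?_⟩)⟩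
  · have := Nat.right_le_pair (Nat.pair a b) t
    omega
  · simp [ta]

theorem lim_two (hB : Good B m) (a b : ℕ) :
    (lim hB).Adj a b ∨ ∃ c, (lim hB).Adj a c ∧ (lim hB).Adj c b := by
  set n := Nat.pair (Nat.pair a b) (a + b + 1) with hn
  have h0 : a + b + 1 ≤ n := Nat.right_le_pair _ _
  have ha : ta n = a := by simp [ta, hn]
  have hb : tb n = b := by simp [tb, hn]
  by_cases h1 : st B m n a b
  · exact Or.inl ⟨n, h1⟩
  by_cases h2 : ∃ c, st B m n a c ∧ st B m n c b
  · obtain ⟨c, h3, h4⟩ := h2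
    exact Or.inr ⟨c, ⟨n, h3⟩, ⟨n, h4⟩⟩
  refine Or.inr ⟨m + n, (lim_new hB a b (a + b + 1) (by omega)).symm, n + 1, Or.inr (Or.inl
    ⟨rfl, by omega, Or.inr ⟨hb.symm, by rw [ha]; omega, ?_, ?_⟩⟩)⟩
  · rw [ha, hb]; exact h1
  · rw [ha, hb]; exact h2

theorem lim_deg (hB : Good B m) (v : ℕ) :
    Cardinal.mk ((lim hB).neighborSet v) = Cardinal.aleph0 := by
  have : Infinite ((lim hB).neighborSet v) := by
    refine Infinite.of_injective
      (fun t : ℕ => (⟨m + Nat.pair (Nat.pair v v) (v + 1 + t),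
        (lim_new hB v v (v + 1 + t) (by omega)).symm⟩ : (lim hB).neighborSet v)) ?_
    intro s t hst
    have h1 : m + Nat.pair (Nat.pair v v) (v + 1 + s) = m + Nat.pair (Nat.pair v v) (v + 1 + t) :=
      congrArg Subtype.val hst
    have h2 := (Nat.pair_eq_pair.1 (Nat.add_left_cancel h1)).2
    omega
  exact Cardinal.mk_eq_aleph0 _

theorem lim_ediam (hB : Good B m) : (lim hB).ediam = ((2 : ℕ) : ℕ∞) := by
  have h1 : (lim hB).ediam ≤ 2 := by
    apply SimpleGraph.ediam_le_of_edist_le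
    intro u v
    rcases lim_two hB u v with h | ⟨c, h1, h2⟩
    · rw [SimpleGraph.edist_eq_one_iff_adj.2 h]
      norm_num
    · have := SimpleGraph.edist_le (SimpleGraph.Walk.cons h1 (SimpleGraph.Walk.cons h2
        SimpleGraph.Walk.nil))
      simpa using this
  have h2 : (lim hB).ediam ≠ 0 := SimpleGraph.ediam_ne_zero
  have h3 : (lim hB).ediam ≠ 1 := by
    intro h
    rw [SimpleGraph.ediam_eq_one] at h
    apply lim_tri hB 0 1 2 <;> rw [h] <;> simp
  have h4 : (lim hB).ediam ≠ ⊤ := ne_top_of_le_ne_top (by simp) h1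
  obtain ⟨k, hk⟩ := ENat.ne_top_iff_exists.1 h4
  rw [← hk] at h1 h2 h3 ⊢
  have h5 : k ≤ 2 := by exact_mod_cast h1
  have h6 : k ≠ 0 := by exact_mod_cast h2
  have h7 : k ≠ 1 := by exact_mod_cast h3
  have : k = 2 := by omega
  rw [this]

theorem lim_egirth (hB : Good B m) : ((2 * 2 : ℕ) : ℕ∞) < (lim hB).egirth := by
  refine lt_of_lt_of_le (b := ((5 : ℕ) : ℕ∞)) (by exact_mod_cast (by norm_num : 2 * 2 < 5)) ?_
  rw [SimpleGraph.le_egirth]
  intro a w hw
  have h3 := hw.three_le_length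
  by_contra hlt
  have h5 : w.length < 5 := by
    push Not at hlt
    exact_mod_cast hlt
  cases w with
  | nil => simp at h3
  | cons h1 w =>
    cases w with
    | nil => simp at h3
    | cons h2 w =>
      cases w with
      | nil => simp at h3
      | cons h3' w =>
        cases w with
        | nil => exact lim_tri hB _ _ _ h1 h2 h3'
        | cons h4 w =>
          cases w with
          | nil =>
            have hn := hw.support_nodup
            simp only [SimpleGraph.Walk.support_cons, SimpleGraph.Walk.support_nil, List.tail_cons,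
              List.nodup_cons, List.mem_cons, List.not_mem_nil, or_false, not_or] at hn
            exact hn.1.2.1 (lim_quad hB _ _ _ _ (Ne.symm hn.2.1.2) h1 h2 h4.symm h3'.symm)
          | cons h6 w => simp at h5; omega

/-- the Petersen graph on the vertices `0, ..., 9` -/
def pet (x y : ℕ) : Prop :=
  (x, y) ∈ ([(0, 1), (1, 2), (2, 3), (3, 4), (4, 0), (0, 5), (1, 6), (2, 7), (3, 8), (4, 9),
    (5, 7), (6, 8), (7, 9), (8, 5), (9, 6), (1, 0), (2, 1), (3, 2), (4, 3), (0, 4), (5, 0), (6, 1),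
    (7, 2), (8, 3), (9, 4), (7, 5), (8, 6), (9, 7), (5, 8), (6, 9)] : List (ℕ × ℕ))

instance (x y : ℕ) : Decidable (pet x y) := by unfold pet; infer_instance

theorem pet_lt (x y : ℕ) (h : pet x y) : x < 10 ∧ y < 10 := by
  simp only [pet, List.mem_cons, Prod.mk.injEq, List.not_mem_nil, or_false] at h
  omega

theorem good_pet : Good pet 10 := by
  have h1 : ∀ x < 10, ∀ y < 10, pet x y → pet y x := by decide
  have h2 : ∀ x < 10, ¬ pet x x := by decide
  have h3 : ∀ x < 10, ∀ y < 10, pet x y → ∀ z < 10, pet y z → ¬ pet z x := by decide +kernel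
  have h4' : ∀ x c y c' : Fin 10, (decide (pet x c) && decide (pet c y) && decide (x.1 ≠ y.1) &&
      decide (pet x c') && decide (pet c' y)) = true → c.1 = c'.1 := by decide +kernel
  have h4 : ∀ x < 10, ∀ c < 10, pet x c → ∀ y < 10, pet c y → x ≠ y → ∀ c' < 10, pet x c' →
      pet c' y → c = c' := fun x hx c hc a y hy b d c' hc' e f =>
    h4' ⟨x, hx⟩ ⟨c, hc⟩ ⟨y, hy⟩ ⟨c', hc'⟩ (by simp [a, b, d, e, f])
  refine ⟨fun x y h => h1 x (pet_lt _ _ h).1 y (pet_lt _ _ h).2 h,
    fun x h => h2 x (pet_lt _ _ h).1 h, fun x y h => (pet_lt _ _ h).1,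
    fun x y z a b c => h3 x (pet_lt _ _ a).1 y (pet_lt _ _ a).2 a z (pet_lt _ _ b).2 b c,
    fun x y c c' hxy a b d e => h4 x (pet_lt _ _ a).1 c (pet_lt _ _ a).2 a y (pet_lt _ _ b).2 b
      hxy c' (pet_lt _ _ d).2 d e⟩

theorem good_empty : Good (fun _ _ => False) 0 :=
  ⟨fun _ _ h => h, fun _ h => h, fun _ _ h => h.elim, fun _ _ _ h => h.elim,
    fun _ _ _ _ _ h => h.elim⟩

theorem not_iso : IsEmpty (lim good_pet ≃g lim good_empty) := by
  refine ⟨fun φ => ?_⟩
  obtain ⟨x, hx, hmax⟩ := (Finset.range 10).exists_max_image φ ⟨0, by simp⟩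
  have h1 : ∀ x < 10, ∃ a < 10, ∃ b < 10, ∃ c < 10, a ≠ b ∧ a ≠ c ∧ b ≠ c ∧
      pet x a ∧ pet x b ∧ pet x c := by decide +kernel
  obtain ⟨a, ha, b, hb, c, hc, hab, hac, hbc, pa, pb, pc⟩ := h1 x (Finset.mem_range.1 hx)
  have h2 : ∀ y < 10, pet x y → φ y = ta (φ x - 0) ∨ φ y = tb (φ x - 0) := by
    intro y hy hp
    have h3 : (lim good_empty).Adj (φ x) (φ y) := φ.map_adj_iff.2 ⟨0, hp⟩
    have h4 := hmax y (Finset.mem_range.2 hy)
    have h5 := h3.ne
    obtain ⟨n, hn⟩ := h3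
    exact st_low good_empty n hn (by omega) (Nat.zero_le _)
  have hab' : φ a ≠ φ b := fun h => hab (φ.injective h)
  have hac' : φ a ≠ φ c := fun h => hac (φ.injective h)
  have hbc' : φ b ≠ φ c := fun h => hbc (φ.injective h)
  have h5 := h2 a ha pa
  have h6 := h2 b hb pb
  have h7 := h2 c hc pc
  omega

end Pool.Agent.H104Z.Tied
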